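import Pool.Agent.H28.Haar

set_option autoImplicit false

open Polynomial Pool.Agent.H28

namespace Pool.Agent.Results.MP_5cc272_an.Small

theorem result : ∃ (c : ℕ → ℝ) (P : ℕ → ℝ[X]), (∀ n, 1 ≤ n → 0 < c n ∧ c n < 1) ∧
    P 0 = 1 ∧ P 1 = X ∧
    (∀ n, 1 ≤ n → X * P n = (1 - c n) • P (n + 1) + c n • P (n - 1)) ∧
    (∀ m n, ∃ g : ℕ →₀ ℝ, (∀ k, 0 ≤ g k) ∧ P m * P n = g.sum fun k r => r • P k) ∧
    (∀ n, |(P n).eval 0| ≤ 1) ∧ 1 / c 1 * ((1 - c 1) / c 2) < 2 := by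
  refine ⟨Haar.c, Haar.P, fun n h => ⟨(Haar.cb n).2.1 (by omega), sub_pos.1 (Haar.cb n).2.2⟩, rfl,
    rfl, fun n _ => Haar.rc n, Haar.lin, Haar.ev, ?_⟩
  norm_num [Haar.c1, Haar.c2]

end Pool.Agent.Results.MP_5cc272_an.Small
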